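import Mathlib
import Pool.Agent.Y723.Z8.StmD
import Pool.Agent.Y455.Z8.Avg

/-!
# Project Z8D, step AVGS: the average over a short square (helper523, for helper723)

As `Pool.Agent.Y455.Z8.avg_of` (helper455), with the parameters of `W782/RS/Avg2s.lean`.
-/

set_option autoImplicit false

namespace Pool.Agent.Y523.Z8

open Finset Pool.Agent.W262.RK Pool.Agent.W307.RT Pool.Agent.TH841.PT Pool.Agent.Y723.Z8
  Pool.Agent.Y455.Z8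

/-- the parameters -/
def Th (B : ℕ) : Type :=
  {θ : ℤ × ℤ × ℕ // 1 ≤ θ.2.2 ∧ θ.1.natAbs ≤ θ.2.2 ^ B ∧ θ.2.1.natAbs ≤ θ.2.2 ^ B}

open Classical in
/-- the pairs -/
noncomputable def TS (N1 N2 : ℤ) (X : ℕ) : Finset (ℕ × ℕ) :=
  (Icc 1 X ×ˢ Icc 1 X).filter (fun t : ℕ × ℕ =>
    IsCoprime (N1 + (t.1 : ℤ)) (N2 + (t.2 : ℤ)) ∧ M8 (N1 + (t.1 : ℤ)) (N2 + (t.2 : ℤ)) ≠ 0 ∧
      N8 (N1 + (t.1 : ℤ)) (N2 + (t.2 : ℤ)) ≠ 0 ∧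
      M8 (N1 + (t.1 : ℤ)) (N2 + (t.2 : ℤ)) ≠ N8 (N1 + (t.1 : ℤ)) (N2 + (t.2 : ℤ)))

/-- the summand -/
noncomputable def rr (N1 N2 : ℤ) (t : ℕ × ℕ) : ℝ :=
  (2 : ℝ) ^ Module.finrank ℤ (EAB (-(M8 (N1 + (t.1 : ℤ)) (N2 + (t.2 : ℤ))))
    (-(N8 (N1 + (t.1 : ℤ)) (N2 + (t.2 : ℤ))))).toAffine.Point

lemma rr_nonneg (N1 N2 : ℤ) (t : ℕ × ℕ) : 0 ≤ rr N1 N2 t := by
  unfold rr
  positivity

lemma sum_GG (N1 N2 : ℤ) (X : ℕ) : ∑ t ∈ Icc 1 X ×ˢ Icc 1 X,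
    Pool.Agent.W307.RS.GG M8 N8 (N1 + (t.1 : ℤ), N2 + (t.2 : ℤ)) =
      ∑ t ∈ TS N1 N2 X, rr N1 N2 t := by
  classical
  unfold TS
  rw [sum_filter]
  refine sum_congr rfl fun t _ => ?_
  unfold Pool.Agent.W307.RS.GG rr
  rfl

/-- the small scales -/
lemma small (R : ℤ → ℤ → ℕ → ℝ) (hR : ∀ N1 N2 X, 0 ≤ R N1 N2 X) (B X0 : ℕ) :
    ∃ D : ℝ, 0 ≤ D ∧ ∀ (N1 N2 : ℤ) (X : ℕ), 1 ≤ X → X ≤ X0 → N1.natAbs ≤ X ^ B →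
      N2.natAbs ≤ X ^ B → R N1 N2 X ≤ D := by
  refine ⟨∑ N1 ∈ Icc (-((X0 ^ B : ℕ) : ℤ)) ((X0 ^ B : ℕ) : ℤ),
    ∑ N2 ∈ Icc (-((X0 ^ B : ℕ) : ℤ)) ((X0 ^ B : ℕ) : ℤ), ∑ X ∈ Icc 1 X0, R N1 N2 X,
    sum_nonneg fun _ _ => sum_nonneg fun _ _ => sum_nonneg fun _ _ => hR _ _ _, ?_⟩
  intro N1 N2 X h1 h2 h3 h4
  have hXB : X ^ B ≤ X0 ^ B := Nat.pow_le_pow_left h2 B
  have m1 : N1 ∈ Icc (-((X0 ^ B : ℕ) : ℤ)) ((X0 ^ B : ℕ) : ℤ) := by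
    rw [mem_Icc]; omega
  have m2 : N2 ∈ Icc (-((X0 ^ B : ℕ) : ℤ)) ((X0 ^ B : ℕ) : ℤ) := by
    rw [mem_Icc]; omega
  have m3 : X ∈ Icc 1 X0 := mem_Icc.mpr ⟨h1, h2⟩
  calc R N1 N2 X ≤ ∑ X ∈ Icc 1 X0, R N1 N2 X :=
        single_le_sum (f := fun X => R N1 N2 X) (fun _ _ => hR _ _ _) m3
    _ ≤ ∑ N2 ∈ Icc (-((X0 ^ B : ℕ) : ℤ)) ((X0 ^ B : ℕ) : ℤ), ∑ X ∈ Icc 1 X0, R N1 N2 X :=
        single_le_sum (f := fun N2 => ∑ X ∈ Icc 1 X0, R N1 N2 X)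
          (fun _ _ => sum_nonneg fun _ _ => hR _ _ _) m2
    _ ≤ _ := single_le_sum (f := fun N1 => ∑ N2 ∈ Icc (-((X0 ^ B : ℕ) : ℤ)) ((X0 ^ B : ℕ) : ℤ),
          ∑ X ∈ Icc 1 X0, R N1 N2 X)
          (fun _ _ => sum_nonneg fun _ _ => sum_nonneg fun _ _ => hR _ _ _) m1

/-- the size of the coordinates -/
lemma size {N : ℤ} {X B t : ℕ} (hX : 2 ≤ X) (hN : N.natAbs ≤ X ^ B) (ht : t ≤ X) :
    (N + (t : ℤ)).natAbs ≤ X ^ (B + 2) := by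
  have h1 : (N + (t : ℤ)).natAbs ≤ X ^ B + X := by omega
  have h71 : X ^ B ≤ X ^ (B + 1) := Nat.pow_le_pow_right (by omega) (by omega)
  have h72 : X ≤ X ^ (B + 1) := Nat.le_self_pow (by omega) X
  calc (N + (t : ℤ)).natAbs ≤ X ^ B + X := h1
    _ ≤ 2 * X ^ (B + 1) := by omega
    _ ≤ X * X ^ (B + 1) := Nat.mul_le_mul_right _ hX
    _ = X ^ (B + 2) := by ring

/-- **AVGS**: the average over a short square -/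
theorem avgs_of (h1 : S_CNTS) (h2 : S_RNK) (h3 : S_MAK) : S_AVGS := by
  classical
  intro B
  obtain ⟨z1, hz1⟩ := h1
  obtain ⟨z2, hz2⟩ := h2
  obtain ⟨z3, hz3⟩ := h3
  obtain ⟨z, hz⟩ : ∃ z : ℕ, z = z1 + z2 + z3 + 22 := ⟨_, rfl⟩
  obtain ⟨Cc, K, y0, hCc0, hK1, hcn⟩ := hz1 z (by omega) B
  obtain ⟨CR, D, hCR0, hD1, hrn⟩ := hz2 z (by omega)
  obtain ⟨CM, hCM⟩ := hz3 z (by omega)
  have hlog : ∀ y : ℕ, z < y → 0 < Real.log y := fun y hy =>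
    Real.log_pos (by exact_mod_cast (by omega : 1 < y))
  have hgn : ∀ {y' : ℕ} {s : Fin 7 × Bool → ℕ} (_ : s ∈ Tup (Fin 7 × Bool) z y')
      (i : Fin 7 × Bool), 0 ≤ gp (rr8 i) 10 (s i) := fun hs i =>
    RSPf.gp_nonneg (fun p => (rr8_bd i p).1) (by omega)
      ((Pool.Agent.W405.RK2.mem_Tup.1 hs).1 i)
  suffices key : ∃ C2 : ℝ, ∀ θ : Th B, ∑ t ∈ TS θ.1.1 θ.1.2.1 θ.1.2.2, rr θ.1.1 θ.1.2.1 t ≤
        C2 * ((θ.1.2.2 : ℝ) ^ 2) by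
    obtain ⟨C2, hC2⟩ := key
    refine ⟨C2, fun N1 N2 X hX h1 h2 => ?_⟩
    rw [sum_GG]
    exact hC2 ⟨(N1, N2, X), hX, h1, h2⟩
  refine antx (Fin 7 × Bool) (ℕ × ℕ) (Th B)
    (fun θ => TS θ.1.1 θ.1.2.1 θ.1.2.2)
    (fun θ => θ.1.2.2) (fun θ t => pr8 z (θ.1.1 + (t.1 : ℤ)) (θ.1.2.1 + (t.2 : ℤ)))
    (fun θ => (θ.1.2.2 : ℝ) ^ 2) z
    (fun y => (Real.log y) ^ 7)
    (fun s => NBT cls8 e8 s * ∏ i, gp (rr8 i) 10 (s i))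
    (fun v => ∏ i, ((4 : ℝ) ^ (v i).primeFactors.card * (gp (rr8 i) 10 (v i) / v i)))
    (fun w => ∏ i, ((2 : ℝ) ^ (w i).primeFactors.card / (w i : ℝ)))
    (fun θ t => rr θ.1.1 θ.1.2.1 t) (Cc * CR) (D ^ (B + 2)) K (y0 + 2)
    (by omega) (fun y hy => pow_pos (hlog y hy) 7)
    (fun θ => θ.2.1) (fun θ => by positivity) (fun X0 => ?_) (fun θ t ht => ?_)
    (fun θ t => rr_nonneg _ _ _) (mul_nonneg hCc0 hCR0) (one_le_pow₀ hD1) hK1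
    (fun y s hs => ⟨?_, ?_⟩) (fun y Y hzy w hw => ?_) (fun lam hlam => ?_)
    (fun lam hlam => ?_) (fun lam hlam => ?_) ?_
  · -- small scales
    obtain ⟨D', hD'0, hD'⟩ := small
      (fun N1 N2 X => ∑ t ∈ TS N1 N2 X, rr N1 N2 t)
      (fun _ _ _ => sum_nonneg fun _ _ => rr_nonneg _ _ _) B X0
    refine ⟨D', fun θ hθ => ?_⟩
    refine (hD' θ.1.1 θ.1.2.1 θ.1.2.2 θ.2.1 hθ θ.2.2.1 θ.2.2.2).trans ?_
    have h1 : (1 : ℝ) ≤ (θ.1.2.2 : ℝ) ^ 2 := one_le_pow₀ (by exact_mod_cast θ.2.1)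
    exact le_mul_of_one_le_right hD'0 h1
  · unfold TS at ht
    have h4 := (mem_filter.1 ht).2
    exact pr8_Gd (by omega) h4.1 (F8_ne h4.2.1 h4.2.2.1 h4.2.2.2)
  · exact mul_nonneg (NBT_nonneg _ _ _) (prod_nonneg fun i _ => hgn hs i)
  · exact prod_nonneg fun i _ => mul_nonneg (by positivity)
      (div_nonneg (hgn hs i) (Nat.cast_nonneg _))
  · exact prod_nonneg fun i _ => by positivity
  · -- the first sum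
    obtain ⟨A, hA⟩ := RSPf.rsp (Fin 7 × Bool) z 10 rr8 (NBT cls8 e8)
      (fun y => CM * (Real.log y) ^ 7) 4 lam (by omega) rr8_bd (by norm_num) hlam
      (NBT_nonneg _ _)
      (fun y hy s e' hse => SubT.subt (Fin 7 × Bool) cls8 e8 z y (by omega) s e' hse)
      (fun y hy => hCM y hy)
    refine ⟨A * CM, fun y hy => ?_⟩
    have := hA y hy
    rw [mul_assoc]
    exact this
  · exact RVU.rvp (Fin 7 × Bool) z 10 rr8 4 lam (by omega) rr8_bd (by norm_num) hlam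
  · exact RVU.rup (Fin 7 × Bool) 2 lam (by norm_num) hlam
  -- the local majorant
  rintro ⟨⟨N1, N2, X⟩, hX1, hN1, hN2⟩ y Y k hy0 hzy hyK hk s hs v hv w hw h8 T' hT' hval
  simp only at hX1 hN1 hN2 hyK hk h8 hT' hval ⊢
  have hyX : y ≤ X := le_trans (Nat.le_self_pow (by omega) y) hyK
  have hX2 : 2 ≤ X := by omega
  have hkB : X ^ (B + 2) < (y + 1) ^ ((B + 2) * k) := by
    rw [mul_comm (B + 2) k, pow_mul]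
    exact Nat.pow_lt_pow_left hk (by omega)
  obtain ⟨W, hW⟩ : ∃ W : ℝ, W = CR * D ^ ((B + 2) * k) * 4 ^ (∑ i, (v i).primeFactors.card) *
      NBT cls8 e8 s := ⟨_, rfl⟩
  have hW0 : 0 ≤ W := by
    rw [hW]
    exact mul_nonneg (by positivity) (NBT_nonneg _ _ _)
  have e1 : ∀ t ∈ T', rr N1 N2 t ≤ W := by
    intro t ht
    have h4 := hT' ht
    unfold TS at h4
    rw [mem_filter, mem_product, mem_Icc, mem_Icc] at h4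
    obtain ⟨⟨⟨-, ht1⟩, -, ht2⟩, hco, hM0, hN0, hMN⟩ := h4
    obtain ⟨hts, htv, _⟩ := hval t ht
    have h6 := hrn (X ^ (B + 2)) y ((B + 2) * k) (N1 + (t.1 : ℤ)) (N2 + (t.2 : ℤ)) hco
      (F8_ne hM0 hN0 hMN) (size hX2 hN1 ht1) (size hX2 hN2 ht2)
      (Nat.one_le_pow _ _ (by omega)) hzy hkB
    rw [hts, htv] at h6
    rw [hW]
    exact h6
  have e3 : (T'.card : ℝ) ≤ Cc * X ^ 2 * (∏ i, gp (rr8 i) 10 (s i)) *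
      (∏ i, gp (rr8 i) 10 (v i) / v i) * (∏ i, 2 ^ (w i).primeFactors.card / (w i : ℝ)) /
        (Real.log y) ^ 7 := by
    refine le_trans ?_ (hcn N1 N2 X y Y hN1 hN2 (by omega) hzy hyK s hs v hv w hw h8)
    have h4 : T' ⊆ (Icc 1 X ×ˢ Icc 1 X).filter (fun t : ℕ × ℕ =>
        IsCoprime (N1 + (t.1 : ℤ)) (N2 + (t.2 : ℤ)) ∧
        (∀ j, F8 (N1 + (t.1 : ℤ)) (N2 + (t.2 : ℤ)) j ≠ 0) ∧
        S1 z y (pr8 z (N1 + (t.1 : ℤ)) (N2 + (t.2 : ℤ))) = s ∧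
        S2 z y (pr8 z (N1 + (t.1 : ℤ)) (N2 + (t.2 : ℤ))) = v ∧
        ∀ i, (w i : ℤ) ∣ pr8 z (N1 + (t.1 : ℤ)) (N2 + (t.2 : ℤ)) i) := by
      intro t ht
      have h5 := hT' ht
      unfold TS at h5
      have h5' := mem_filter.1 h5
      have h6 := hval t ht
      exact mem_filter.2 ⟨h5'.1, h5'.2.1, F8_ne h5'.2.2.1 h5'.2.2.2.1 h5'.2.2.2.2, h6.1, h6.2.1,
        h6.2.2⟩
    exact_mod_cast card_le_card h4
  calc ∑ t ∈ T', rr N1 N2 t ≤ ∑ _t ∈ T', W := sum_le_sum e1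
    _ = (T'.card : ℝ) * W := by rw [sum_const, nsmul_eq_mul]
    _ ≤ _ := mul_le_mul_of_nonneg_right e3 hW0
    _ = _ := by
        rw [hW, prod_mul_distrib (f := fun i => (4 : ℝ) ^ (v i).primeFactors.card),
          prod_pow_eq_pow_sum, pow_mul]
        ring

end Pool.Agent.Y523.Z8
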